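import Mathlib
import Pool.Agent.Q17.NRP.Fin

/-!
# Groups over `F_p(X)`: subgroups whose Sylow subgroups are abelian away from `p`

Let `p` be a prime, `κ` a finite field of characteristic `p` (for example the prime field) and
`κ(X)` the rational function field. Call a finite group `N` good (`GoodKernel p N`) if

* the Sylow `r`-subgroups of `N` are abelian for all primes `r ≠ p` (no condition for `r = p`),
* the composition factors of `N` have prime order or are classical simple groups in characteristic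
  `p` from the list `Factor p` of the starting library (`Pool/Agent/Y60/DCF/Defs.lean`).

For a normal subgroup `N` of a group `G` let `M` be the smallest normal subgroup of `N` such that
`N / M` is abelian of order prime to `p`.

(1) If `N` is a good normal subgroup of the finite group `G` (any group), then `G` occurs over `κ(X)`
if and only if `G / M` does; so `G` occurs if and only if `G / N` does, if `N / [N, N]` is a
`p`-group.
(2) Every good finite group `G` occurs over `κ(X)`, and over `K(t)` regularly for every field `K` of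
characteristic `p`.
(3) Every embedding problem over `κ(X)` with a good kernel `N` has a proper solution if and only if
the one with kernel `N / M` has a weak solution (for example, if it splits or `N / [N, N]` is a
`p`-group).
(4) Surjections with good kernel `N`, `N / [N, N]` a `p`-group, may be used together with the
homomorphisms of the class `Step p κ(X)` of the starting library in infinite towers over `κ(X)`.
-/

set_option autoImplicit false

open Pool.Agent.Q17.NRP (GoodKernel AbelianizationIsPGroup residual WeakSolModulo)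
open Pool.Agent.Y60.DCF (Step)

namespace Pool.Agent.Results.MP_7f581e_nt.AbelianSylowKernels

/-- `G` occurs over `F`: it is the Galois group of a finite Galois extension of `F`. -/
def Occurs (F G : Type) [Field F] [Group G] : Prop :=
  ∃ (L : Type) (_ : Field L) (_ : Algebra F L),
    FiniteDimensional F L ∧ IsGalois F L ∧ Nonempty ((L ≃ₐ[F] L) ≃* G)

/-- `G` occurs regularly over `K`: it is the Galois group of a finite Galois extension of `K(t)` in
which `K` is algebraically closed. -/
def OccursRegularly (K G : Type) [Field K] [Group G] : Prop :=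
  ∃ (F : Type) (_ : Field F) (_ : Algebra (RatFunc K) F) (_ : Algebra K F)
    (_ : IsScalarTower K (RatFunc K) F) (_ : FiniteDimensional (RatFunc K) F)
    (_ : IsGalois (RatFunc K) F),
    Nonempty ((F ≃ₐ[RatFunc K] F) ≃* G) ∧
    ∀ y : F, IsAlgebraic K y → y ∈ Set.range (algebraMap K F)

/-- The embedding problem `α : G → Gal(L/K)` has a proper solution: there are a finite Galois
extension `F` of `K` containing `L` and an isomorphism `γ` of `Gal(F/K)` with `G` such that
`α (γ σ)` is the restriction of `σ` to `L`. -/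
def ProperSolution (K L G : Type) [Field K] [Field L] [Algebra K L] [Normal K L] [Group G]
    (α : G →* (L ≃ₐ[K] L)) : Prop :=
  ∃ (F : Type) (_ : Field F) (_ : Algebra K F) (_ : Algebra L F) (_ : IsScalarTower K L F),
    FiniteDimensional K F ∧ IsGalois K F ∧
    ∃ γ : (F ≃ₐ[K] F) ≃* G, ∀ σ : F ≃ₐ[K] F, α (γ σ) = σ.restrictNormal L

/-- `α` has a section which is a homomorphism. -/
def Splits {K L G : Type} [Field K] [Field L] [Algebra K L] [Group G] (α : G →* (L ≃ₐ[K] L)) :
    Prop :=
  ∃ s : (L ≃ₐ[K] L) →* G, ∀ ρ, α (s ρ) = ρ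

/-- The homomorphism `π` is surjective, its kernel `N` is finite, `GoodKernel p N` holds and
`N / [N, N]` is a `p`-group. -/
def GoodStep (p : ℕ) [Fact p.Prime] {W W' : Type} [Group W] [Group W'] (π : W' →* W) : Prop :=
  Function.Surjective π ∧ Finite π.ker ∧ GoodKernel p π.ker ∧ AbelianizationIsPGroup p π.ker

/-- The inverse limit of the sequence `W 0 ← W 1 ← W 2 ← ...`: the group of all sequences `x` with
`π i (x (i + 1)) = x i`. -/
abbrev InvLim {W : ℕ → Type} [∀ i, Group (W i)] (π : ∀ i, W (i + 1) →* W i) : Subgroup (∀ i, W i) :=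
  Pool.Agent.TH15.IGP.Lim π

/-- The defining property of the inverse limit. -/
theorem mem_invLim {W : ℕ → Type} [∀ i, Group (W i)] (π : ∀ i, W (i + 1) →* W i)
    (x : ∀ i, W i) : x ∈ InvLim π ↔ ∀ i, π i (x (i + 1)) = x i := Iff.rfl

/-- The embedding problem over `K` given by `L/K` and the projection `x ↦ e₀ (x 0)` of the inverse
limit of the `W i` to `Gal(L/K)` has a proper solution: there are a Galois extension `F` of `K`
containing `L` and an isomorphism `γ` of `Gal(F/K)` with the inverse limit, all of whose components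
are continuous, such that the action on `L` is `σ ↦ e₀ (component of γ σ in W 0)`. -/
def LimitSolution (K L : Type) [Field K] [Field L] [Algebra K L] {W : ℕ → Type}
    [∀ i, Group (W i)] (π : ∀ i, W (i + 1) →* W i) (e₀ : W 0 ≃* (L ≃ₐ[K] L)) : Prop :=
  ∃ (F : Type) (_ : Field F) (_ : Algebra K F) (_ : Algebra L F) (_ : IsScalarTower K L F)
    (_ : IsGalois K F) (γ : (F ≃ₐ[K] F) ≃* InvLim π),
    (∀ i, IsOpen {σ : F ≃ₐ[K] F | (γ σ).1 i = 1}) ∧
    ∀ (σ : F ≃ₐ[K] F) (x : L), σ (algebraMap L F x) = algebraMap L F (e₀ ((γ σ).1 0) x)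

/-- Part (1). -/
def NormalSubgroups (p : ℕ) [Fact p.Prime] (K : Type) [Field K] : Prop :=
  ∀ (G : Type) [Group G] [Finite G] (N : Subgroup G) [N.Normal], GoodKernel p N →
    (Occurs K G ↔ Occurs K (G ⧸ residual p N)) ∧
    (AbelianizationIsPGroup p N → (Occurs K G ↔ Occurs K (G ⧸ N)))

/-- Part (3). -/
def EmbeddingProblems (p : ℕ) [Fact p.Prime] (K : Type) [Field K] : Prop :=
  ∀ (L G : Type) [Field L] [Algebra K L] [FiniteDimensional K L] [IsGalois K L]
    [Group G] [Finite G] (α : G →* (L ≃ₐ[K] L)), Function.Surjective α → GoodKernel p α.ker →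
    (ProperSolution K L G α ↔ WeakSolModulo K L α (residual p α.ker)) ∧
    (AbelianizationIsPGroup p α.ker ∨ Splits α → ProperSolution K L G α)

/-- Part (4). -/
def Towers (p : ℕ) [Fact p.Prime] (K : Type) [Field K] : Prop :=
  ∀ (L : Type) [Field L] [Algebra K L] [FiniteDimensional K L] [IsGalois K L]
    (W : ℕ → Type) [∀ i, Group (W i)] (e₀ : W 0 ≃* (L ≃ₐ[K] L)) (π : ∀ i, W (i + 1) →* W i),
    (∀ i, Step p K (π i) ∨ GoodStep p (π i)) → LimitSolution K L π e₀

lemma occurs_quotient {K X : Type} [Field K] [Group X] (M : Subgroup X)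
    [M.Normal] (h : Occurs K X) : Occurs K (X ⧸ M) := by
  obtain ⟨L, i1, i2, i3, i4, ⟨e⟩⟩ := h
  let H : Subgroup (L ≃ₐ[K] L) := M.map e.symm.toMonoidHom
  have hH : H.Normal := ‹M.Normal›.map e.symm.toMonoidHom e.symm.surjective
  refine ⟨IntermediateField.fixedField H, inferInstance, inferInstance, inferInstance,
    inferInstance, ⟨?_⟩⟩
  exact ((QuotientGroup.congr M H e.symm rfl).trans (IsGalois.normalAutEquivQuotient H)).symm

lemma good_top {p : ℕ} [Fact p.Prime] {K G : Type} [Field K] [CharP K p] [Group G] [Finite G]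
    (h : GoodKernel p G) :
    Pool.Agent.H391R2.T4.RegSol K K G (1 : G →* (K ≃ₐ[K] K)) := by
  let α : G →* (K ≃ₐ[K] K) := 1
  have hab : Pool.Agent.Q17.NRP.AbR p α.ker := by
    intro r hr hrp P _ hP x hx y hy
    have := Fact.mk hr
    obtain ⟨Q, hQ⟩ := hP.exists_le_sylow
    exact h.1 r Q hrp x (hQ hx) y (hQ hy)
  have e : G ≃* α.ker := (Subgroup.topEquiv.symm).trans (MulEquiv.subgroupCongr (by
    ext x
    simp [α]))
  have hco := Pool.Agent.Y419.DC.quot
    (Pool.Agent.Q17.NRP.SP.iso fun T T' _ _ h h' => Pool.Agent.Y60.DC.FacC.iso p T T' h h')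
    (Pool.Agent.Q17.NRP.SP.simple fun T _ h => Pool.Agent.Y60.DC.FacC.simple p T h)
    (Pool.Agent.Q17.NRP.compIn_allowed h.2) _ e.toMonoidHom e.surjective
  have hall : ∀ σ τ : K ≃ₐ[K] K, σ = τ := fun σ τ => AlgEquiv.ext fun x => by
    have h1 : ∀ ρ : K ≃ₐ[K] K, ρ x = x := fun ρ => ρ.commutes x
    rw [h1, h1]
  exact Pool.Agent.Q17.NRP.reg_weak p α hab hco
    (Pool.Agent.Q17.NRP.weakSol_of_section α _ (Pool.Agent.Q17.NRP.Mp_le p _) 1
      fun ρ => hall _ _)

end Pool.Agent.Results.MP_7f581e_nt.AbelianSylowKernels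

open Pool.Agent.Results.MP_7f581e_nt.AbelianSylowKernels in
theorem Pool.Agent.Results.MP_7f581e_nt.AbelianSylowKernels.result :
    ∀ (p : ℕ) [Fact p.Prime],
      (∀ (κ : Type) [Field κ] [Finite κ] [CharP κ p], NormalSubgroups p (RatFunc κ) ∧
        EmbeddingProblems p (RatFunc κ) ∧ Towers p (RatFunc κ)) ∧
      ∀ (G : Type) [Group G] [Finite G], GoodKernel p G →
        (∀ (κ : Type) [Field κ] [Finite κ] [CharP κ p], Occurs (RatFunc κ) G) ∧
        ∀ (K : Type) [Field K] [CharP K p], OccursRegularly K G := by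
  intro p _
  refine ⟨fun κ _ _ _ => ⟨?_, ?_, ?_⟩, ?_⟩
  · intro G _ _ N _ hN
    have := Pool.Agent.Y60.DC.charP_ratFunc κ p
    have key : ∀ (M : Subgroup G) [M.Normal], M = residual p N →
        (Occurs (RatFunc κ) G ↔ Occurs (RatFunc κ) (G ⧸ M)) := by
      intro M _ hM
      refine ⟨occurs_quotient M, ?_⟩
      rintro ⟨L, i1, i2, i3, i4, ⟨e⟩⟩
      let α : G →* (L ≃ₐ[RatFunc κ] L) := e.symm.toMonoidHom.comp (QuotientGroup.mk' M)
      have hα : Function.Surjective α := e.symm.surjective.comp (QuotientGroup.mk'_surjective M)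
      have hk : α.ker = residual p N := by
        rw [← hM]
        ext x
        rw [MonoidHom.mem_ker]
        change e.symm (QuotientGroup.mk' M x) = 1 ↔ _
        rw [map_eq_one_iff e.symm e.symm.injective]
        exact QuotientGroup.eq_one_iff x
      have hcl := Pool.Agent.Q17.NRP.cls_Mp p (RatFunc κ) _ G N rfl
        (Pool.Agent.Q17.NRP.AbelianSylows.abR hN.1) (Pool.Agent.Q17.NRP.compIn_allowed hN.2)
        (L ≃ₐ[RatFunc κ] L) α hα hk
      obtain ⟨F, j1, j2, j3, j4, j5, j6, γ, -⟩ := Pool.Agent.Y60.DC.clsC_spec_one p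
        (Pool.Agent.TH377.IG.spec_ratFunc κ) L G α hcl
      exact ⟨F, j1, j2, j5, j6, ⟨γ⟩⟩
    refine ⟨key _ rfl, fun h => ?_⟩
    exact key N (Pool.Agent.Q17.NRP.residual_eq h).symm
  · intro L G _ _ _ _ _ _ α hα hk
    have := Pool.Agent.Y60.DC.charP_ratFunc κ p
    have hsp := Pool.Agent.TH377.IG.spec_ratFunc κ
    have key : WeakSolModulo (RatFunc κ) L α (residual p α.ker) →
        ProperSolution (RatFunc κ) L G α := fun hw =>
      Pool.Agent.Q17.NRP.proper_of_reg hsp α (Pool.Agent.Q17.NRP.reg_good p α hk hw)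
    refine ⟨⟨fun h => Pool.Agent.Q17.NRP.weak_of_proper α _ (Pool.Agent.Q17.NRP.Mp_le p _) h, key⟩,
      ?_⟩
    rintro (h | ⟨s, hs⟩)
    · exact key (Pool.Agent.Q17.NRP.weakSol_of_eq α hα _ (Pool.Agent.Q17.NRP.residual_eq h))
    · exact key (Pool.Agent.Q17.NRP.weakSol_of_section α _ (Pool.Agent.Q17.NRP.Mp_le p _) s hs)
  · intro L _ _ _ _ W _ e₀ π hp
    have := Pool.Agent.Y60.DC.charP_ratFunc κ p
    exact Pool.Agent.Y60.DC.clsC_ratFunc p κ W π
      (Pool.Agent.Q17.NRP.tower_cls p (RatFunc κ) W π hp (Finite.of_equiv _ e₀.symm.toEquiv)) L e₀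
  · intro G _ _ hG
    constructor
    · intro κ _ _ _
      have := Pool.Agent.Y60.DC.charP_ratFunc κ p
      obtain ⟨F, j1, j2, j3, j4, j5, j6, γ, -⟩ := Pool.Agent.Q17.NRP.proper_of_reg
        (Pool.Agent.TH377.IG.spec_ratFunc κ) (1 : G →* (RatFunc κ ≃ₐ[RatFunc κ] RatFunc κ))
        (good_top hG)
      exact ⟨F, j1, j2, j5, j6, ⟨γ⟩⟩
    · intro K _ _
      obtain ⟨F, j1, j2, j3, j4, j5, j6, j7, j8, γ, h1, h2⟩ := good_top (K := K) hG
      have hj : j3 = j4 := Algebra.algebra_ext _ _ fun x =>
        (@IsScalarTower.algebraMap_apply K K F _ _ _ _ j3 j4 j6 x).symm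
      subst hj
      exact ⟨F, j1, j2, j3, j5, j7, j8, ⟨γ⟩, h2⟩
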