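import Mathlib
import Pool.Agent.Q216.IGP.Fields2

/-!
# The inverse Galois problem over `F_p(X)` with restricted decomposition groups

A place of a field `F` with finite residue field is given by a Dedekind domain `A` with field of
fractions `F` (for instance a discrete valuation ring) and a nonzero prime `P` of `A` with finite
residue field.  Every finite group occurs over `F_p(X)` if and only if every finite group occurs
with an extension in which, for every prime `r ≠ p`, all `r`-subgroups of the decomposition groups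
at all places are cyclic; every finite group of order prime to `p` occurs over `F_p(X)` if and only
if every such group occurs with an extension in which all Sylow subgroups of all decomposition
groups are cyclic.
-/

set_option autoImplicit false

namespace Pool.Agent.Results.MP_7f581e_nt.CyclicSylow

open Pool.Agent.Q216.IGP

/-- `L` is Galois over `F` with a group isomorphic to `G`. -/
def HasGroup (F L G : Type*) [Field F] [Field L] [Algebra F L] [Group G] : Prop :=
  IsGalois F L ∧ Nonempty (Gal(L/F) ≃* G)

/-- The subgroup `R` of the Galois group is contained in the decomposition group of `Q`: its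
elements map `Q` onto itself. -/
def InDecomp (A F L : Type*) [CommRing A] [Field F] [Field L] [Algebra F L] [Algebra A L]
    (Q : Ideal (integralClosure A L)) (R : Subgroup Gal(L/F)) : Prop :=
  ∀ σ ∈ R, ∀ x y : integralClosure A L, σ x = y → (x ∈ Q ↔ y ∈ Q)

/-- For every place of `F` with finite residue field (given by a Dedekind domain `A` with field of
fractions `F`) and every prime `Q` of `L` over it, and for every prime number `r` which is not in
`Q`, every `r`-subgroup of the decomposition group of `Q` is cyclic. -/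
def CyclicPrimeTo.{v} (F L : Type v) [Field F] [Field L] [Algebra F L] : Prop :=
  ∀ (A : Type v) [CommRing A] [IsDedekindDomain A] [Algebra A F] [IsFractionRing A F]
    [Algebra A L] [IsScalarTower A F L] (Q : Ideal (integralClosure A L)), Q.IsPrime → Q ≠ ⊥ →
    Finite (A ⧸ Q.under A) → ∀ r : ℕ, r.Prime → (r : integralClosure A L) ∉ Q →
    ∀ R : Subgroup Gal(L/F), IsPGroup r R → InDecomp A F L Q R → IsCyclic R

/-- Whenever a Galois extension `N/F` of fields has group `Γ`, the fixed field `L` of the kernel of
`π` is Galois over `F` with group `G`, and has the property `CyclicPrimeTo`. -/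
def Forces.{u, v} {Γ G : Type u} [Group Γ] [Group G] (π : Γ →* G) : Prop :=
  ∀ (F N : Type v) [Field F] [Field N] [Algebra F N] [IsGalois F N] (e : Gal(N/F) ≃* Γ)
    (L : IntermediateField F N), L = IntermediateField.fixedField (π.comp e.toMonoidHom).ker →
    HasGroup F L G ∧ CyclicPrimeTo F L

/-- The order of `G` is divisible only by primes in `T`. -/
def IsTGroup (T : Set ℕ) (G : Type) [Group G] : Prop := ∀ r : ℕ, r.Prime → r ∣ Nat.card G → r ∈ T

/-- For every place of `F` with finite residue field and every prime number `r`, different from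
`p`, every `r`-subgroup of the decomposition group of a prime `Q` of `L` over it is cyclic. -/
def CyclicAwayFrom.{v} (p : ℕ) (F L : Type v) [Field F] [Field L] [Algebra F L] : Prop :=
  ∀ (A : Type v) [CommRing A] [IsDedekindDomain A] [Algebra A F] [IsFractionRing A F]
    [Algebra A L] [IsScalarTower A F L] (Q : Ideal (integralClosure A L)), Q.IsPrime → Q ≠ ⊥ →
    Finite (A ⧸ Q.under A) → ∀ r : ℕ, r.Prime → r ≠ p →
    ∀ R : Subgroup Gal(L/F), IsPGroup r R → InDecomp A F L Q R → IsCyclic R

/-- The cover theorem. -/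
theorem cover.{u, v} (G : Type u) [Group G] [Finite G] :
    ∃ (Γ : Type u) (_ : Group Γ) (_ : Finite Γ) (π : Γ →* G), Function.Surjective π ∧
      (∀ a b : Γ, π a = 1 → π b = 1 → a * b = b * a) ∧
      (∀ r : ℕ, r.Prime → r ∣ Nat.card Γ → r ∣ Nat.card G) ∧ Forces.{u, v} π := by
  classical
  have hfin : Fintype G := Fintype.ofFinite G
  have hne : NeZero (Nat.card G ^ 2) := ⟨pow_ne_zero _ Nat.card_pos.ne'⟩
  refine ⟨Cov G (Nat.card G ^ 2), inferInstance, inferInstance, Cov.proj,
    Cov.proj_surjective, fun a b ha hb => Cov.commute_of_proj ha hb,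
    fun r hr h => Cov.dvd_card hr h, ?_⟩
  intro F N _ _ _ _ e L hL
  set ρ : Gal(N/F) →* G := (Cov.proj : Cov G (Nat.card G ^ 2) →* G).comp e.toMonoidHom with hρ
  have hsurj : Function.Surjective ρ := by
    rw [hρ]
    exact Cov.proj_surjective.comp e.surjective
  have hfinGal : Finite Gal(N/F) := Finite.of_equiv _ e.symm.toEquiv
  have hfd : FiniteDimensional F N := IsGaloisGroup.finiteDimensional Gal(N/F) F N
  have hnormal : IsGalois F L := by
    rw [hL]
    infer_instance
  have hker : (AlgEquiv.restrictNormalHom L : Gal(N/F) →* _).ker = ρ.ker := by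
    rw [IntermediateField.restrictNormalHom_ker, hL, IntermediateField.fixingSubgroup_fixedField]
  refine ⟨⟨hnormal, ⟨?_⟩⟩, ?_⟩
  · exact (QuotientGroup.quotientKerEquivOfSurjective (AlgEquiv.restrictNormalHom L)
      (AlgEquiv.restrictNormalHom_surjective N)).symm.trans
      ((QuotientGroup.quotientMulEquivOfEq hker).trans
        (QuotientGroup.quotientKerEquivOfSurjective ρ hsurj))
  · intro A _ _ _ _ _ _ Q hQp hQ hfinA r hr hrQ R hR hRQ
    obtain ⟨a, b, s, h1, h2, f, hf⟩ :=
      exists_metacyclic_tower (F := F) (N := N) (A := A) Q hQ hr hrQ R hR hRQ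
    have h4 : e b * e a * (e b)⁻¹ = (e a) ^ s := by
      rw [← map_pow, ← h1, map_mul, map_mul, map_inv]
    have h5 : IsPGroup r (Subgroup.closure ({e a, e b} : Set (Cov G (Nat.card G ^ 2)))) := by
      have h6 : Subgroup.closure ({e a, e b} : Set (Cov G (Nat.card G ^ 2))) =
          (Subgroup.closure ({a, b} : Set Gal(N/F))).map e.toMonoidHom := by
        rw [MonoidHom.map_closure, Set.image_pair]
        rfl
      rw [h6]
      exact h2.map _
    have h7 : IsCyclic (Subgroup.closure ({ρ a, ρ b} : Set G)) :=
      Cov.isCyclic_closure_of_conj rfl (e a) (e b) s h4 hr h5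
    let ψ : G →* Gal(L/F) :=
      (MonoidHom.liftOfSurjective ρ hsurj) ⟨AlgEquiv.restrictNormalHom L, hker.ge⟩
    have hψ : ∀ x, ψ (ρ x) = AlgEquiv.restrictNormalHom L x := fun x =>
      MonoidHom.liftOfRightInverse_comp_apply _ _ _ _ x
    have h8 : Subgroup.closure ({AlgEquiv.restrictNormalHom L a,
        AlgEquiv.restrictNormalHom L b} : Set Gal(L/F)) =
        (Subgroup.closure ({ρ a, ρ b} : Set G)).map ψ := by
      rw [MonoidHom.map_closure, Set.image_pair, hψ, hψ]
    have h9 : IsCyclic (Subgroup.closure ({AlgEquiv.restrictNormalHom L a,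
        AlgEquiv.restrictNormalHom L b} : Set Gal(L/F))) := by
      rw [h8]
      exact isCyclic_of_surjective (ψ.subgroupMap _) (ψ.subgroupMap_surjective _)
    exact isCyclic_of_injective f hf

/-- The equivalence for an arbitrary field. -/
theorem equivalence.{v} (F : Type v) [Field F] (T : Set ℕ)
    (h : ∀ (G : Type) [Group G] [Finite G], IsTGroup T G →
      ∃ (L : Type v) (_ : Field L) (_ : Algebra F L), HasGroup F L G)
    (G : Type) [Group G] [Finite G] (hG : IsTGroup T G) :
    ∃ (L : Type v) (_ : Field L) (_ : Algebra F L), HasGroup F L G ∧ CyclicPrimeTo F L := by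
  obtain ⟨Γ, _, _, π, hπ, _, hp, hΓ⟩ := cover.{0, v} G
  obtain ⟨N, _, _, hN, ⟨e⟩⟩ := h Γ fun r hr hrd => hG r hr (hp r hr hrd)
  obtain ⟨h1, h2⟩ := hΓ F N e _ rfl
  exact ⟨IntermediateField.fixedField (π.comp e.toMonoidHom).ker, inferInstance, inferInstance, h1,
    h2⟩

/-- In characteristic `p` the residue characteristic is `p`. -/
theorem away.{v} {p : ℕ} [Fact p.Prime] {F L : Type v} [Field F] [CharP F p] [Field L]
    [Algebra F L] (h : CyclicPrimeTo F L) : CyclicAwayFrom p F L := by
  intro A _ _ _ _ _ _ Q hQp hQ hfin r hr hrp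
  refine h A Q hQp hQ hfin r hr fun hrQ => ?_
  have hp : p.Prime := Fact.out
  have h3 : Nat.Coprime r p := (Nat.coprime_primes hr hp).mpr hrp
  have h4 : IsCoprime (r : ℤ) (p : ℤ) := Nat.isCoprime_iff_coprime.mpr h3
  obtain ⟨a, b, hab⟩ := h4
  have hp0 : ((p : ℤ) : integralClosure A L) = 0 := by
    ext
    have : CharP L p := charP_of_injective_algebraMap (algebraMap F L).injective p
    push_cast
    exact CharP.cast_eq_zero L p
  have h5 : (1 : integralClosure A L) = (a : integralClosure A L) * (r : integralClosure A L) := by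
    have h6 := congrArg (Int.cast : ℤ → integralClosure A L) hab
    rw [Int.cast_add, Int.cast_mul, Int.cast_mul, hp0, mul_zero, add_zero, Int.cast_one,
      Int.cast_natCast] at h6
    exact h6.symm
  exact hQp.ne_top ((Ideal.eq_top_iff_one Q).mpr (h5 ▸ Q.mul_mem_left _ hrQ))

theorem result.{u, v} :
    (∀ (G : Type u) [Group G] [Finite G],
      ∃ (Γ : Type u) (_ : Group Γ) (_ : Finite Γ) (π : Γ →* G), Function.Surjective π ∧
        (∀ a b : Γ, π a = 1 → π b = 1 → a * b = b * a) ∧
        (∀ r : ℕ, r.Prime → r ∣ Nat.card Γ → r ∣ Nat.card G) ∧ Forces.{u, v} π) ∧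
    (∀ (F : Type v) [Field F] (T : Set ℕ),
      (∀ (G : Type) [Group G] [Finite G], IsTGroup T G →
        ∃ (L : Type v) (_ : Field L) (_ : Algebra F L), HasGroup F L G) ↔
      ∀ (G : Type) [Group G] [Finite G], IsTGroup T G →
        ∃ (L : Type v) (_ : Field L) (_ : Algebra F L), HasGroup F L G ∧ CyclicPrimeTo F L) ∧
    (∀ (p : ℕ) [Fact p.Prime] (T : Set ℕ),
      (∀ (G : Type) [Group G] [Finite G], IsTGroup T G →
        ∃ (L : Type) (_ : Field L) (_ : Algebra (RatFunc (ZMod p)) L),
          HasGroup (RatFunc (ZMod p)) L G) ↔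
      ∀ (G : Type) [Group G] [Finite G], IsTGroup T G →
        ∃ (L : Type) (_ : Field L) (_ : Algebra (RatFunc (ZMod p)) L),
          HasGroup (RatFunc (ZMod p)) L G ∧ CyclicAwayFrom p (RatFunc (ZMod p)) L) := by
  refine ⟨fun G _ _ => cover G, fun F _ T => ⟨fun h G _ _ hG => equivalence F T h G hG,
    fun h G _ _ hG => ?_⟩, fun p _ T => ⟨fun h G _ _ hG => ?_, fun h G _ _ hG => ?_⟩⟩
  · obtain ⟨L, i1, i2, h1, _⟩ := h G hG
    exact ⟨L, i1, i2, h1⟩
  · obtain ⟨L, i1, i2, h1, h2⟩ := equivalence (RatFunc (ZMod p)) T h G hG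
    have hch : CharP (RatFunc (ZMod p)) p :=
      charP_of_injective_algebraMap (algebraMap (ZMod p) (RatFunc (ZMod p))).injective p
    exact ⟨L, i1, i2, h1, away h2⟩
  · obtain ⟨L, i1, i2, h1, _⟩ := h G hG
    exact ⟨L, i1, i2, h1⟩

end Pool.Agent.Results.MP_7f581e_nt.CyclicSylow
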