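import Mathlib
import Pool.Agent.Q24.PS.Sol

/-!
# The inverse Galois problem over `F_p(X)` with extensions which are universal for small kernels

Every finite group occurs over a field `F` (for instance `F_p(X)`) if and only if for every `n`
every finite group occurs over `F` by an extension `L` such that all finite embedding problems
`A → Gal(L/F)` with a kernel of order at most `n`, split or not, have proper solutions.  The same
holds for the groups and kernels whose orders are divisible only by primes in a given set.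
-/

set_option autoImplicit false

namespace Pool.Agent.Results.MP_7f581e_nt.UniversalSolutions

open Pool.Agent.Q24.PS IntermediateField

/-- The order of `G` is divisible only by primes in `T`. -/
def IsTGroup.{w} (T : Set ℕ) (G : Type w) : Prop :=
  ∀ r : ℕ, r.Prime → r ∣ Nat.card G → r ∈ T

/-- (1): Every finite embedding problem `β : A → Gal(L/F)` with a kernel which is a `T`-group of
order at most `n` has a proper solution `L'`, `δ`. -/
def SolvesSmall.{v} (T : Set ℕ) (n : ℕ) (F L : Type v) [Field F] [Field L] [Algebra F L]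
    [IsGalois F L] : Prop :=
  ∀ (A : Type) [Group A] [Finite A] (β : A →* Gal(L/F)), Function.Surjective β →
    Nat.card β.ker ≤ n → IsTGroup T β.ker →
    ∃ (L' : Type v) (_ : Field L') (_ : Algebra F L') (_ : Algebra L L')
      (_ : IsScalarTower F L L') (_ : IsGalois F L') (δ : Gal(L'/F) ≃* A),
      ∀ σ : Gal(L'/F), β (δ σ) = σ.restrictNormal L

/-- The image in `Gal(L/F)` of a group `D` of automorphisms of the algebraic closure of `L`. -/
noncomputable def image.{v} {F L : Type v} [Field F] [Field L] [Algebra F L] [IsGalois F L]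
    (D : Subgroup Gal((AlgebraicClosure L)/F)) : Subgroup Gal(L/F) :=
  D.map (AlgEquiv.restrictNormalHom L)

/-- The homomorphism `φ` is continuous for the Krull topology: it is trivial on an open
subgroup. -/
def Cont.{v} {F L : Type v} {Q : Type} [Field F] [Field L] [Algebra F L] [Group Q]
    {D : Subgroup Gal((AlgebraicClosure L)/F)} (φ : D →* Q) : Prop :=
  ∃ U : Subgroup Gal((AlgebraicClosure L)/F),
    IsOpen (U : Set Gal((AlgebraicClosure L)/F)) ∧ ∀ σ : D, σ.1 ∈ U → φ σ = 1

/-- (2): For all groups `D` of automorphisms over `F` of the algebraic closure of `L`, every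
embedding problem for the image of `D` in `Gal(L/F)` whose kernel is a `T`-group of order at most
`n` has a (weak) solution on `D`. -/
def ProjectiveUpTo.{v} (T : Set ℕ) (n : ℕ) (F L : Type v) [Field F] [Field L] [Algebra F L]
    [IsGalois F L] : Prop :=
  ∀ (D : Subgroup Gal((AlgebraicClosure L)/F)) (A : Type) [Group A] [Finite A]
    (β : A →* Gal(L/F)), image D ≤ β.range → Nat.card β.ker ≤ n → IsTGroup T β.ker →
      ∃ φ : D →* A, Cont φ ∧ ∀ σ : D, β (φ σ) = AlgEquiv.restrictNormalHom L σ.1

/-- (3): If `D` is a group of automorphisms over `F` of the algebraic closure of `L`, and the image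
of `D` in `Gal(L/F)` contains a noncyclic `p`-group `P`, then `D` contains a group `D'` with a
noncyclic image contained in `P` which maps continuously onto all `p`-groups of order at most `n`
with two generators. -/
def RichUpTo.{v} (p n : ℕ) (F L : Type v) [Field F] [Field L] [Algebra F L] [IsGalois F L] :
    Prop :=
  ∀ (D : Subgroup Gal((AlgebraicClosure L)/F)) (P : Subgroup Gal(L/F)), P ≤ image D →
    IsPGroup p P → ¬ IsCyclic P →
      ∃ D' : Subgroup Gal((AlgebraicClosure L)/F), D' ≤ D ∧ image D' ≤ P ∧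
        ¬ IsCyclic (image D') ∧
        ∀ (Q : Type) [Group Q] [Finite Q] (a b : Q), Subgroup.closure {a, b} = ⊤ →
          IsPGroup p Q → Nat.card Q ≤ n → ∃ φ : D' →* Q, Function.Surjective φ ∧ Cont φ

/-- `L` is Galois over `F` with a group isomorphic to `G`. -/
def HasGroup.{v, w} (F L : Type v) (G : Type w) [Field F] [Field L] [Algebra F L] [Group G] :
    Prop :=
  IsGalois F L ∧ Nonempty (Gal(L/F) ≃* G)

/-- `L` is Galois over `F` with a group isomorphic to `G`, and has the properties (1), (2) and (3)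
(for all primes `p` in `T`). -/
def HasGroupUniv.{v, w} (T : Set ℕ) (n : ℕ) (F L : Type v) (G : Type w) [Field F] [Field L]
    [Algebra F L] [Group G] : Prop :=
  ∃ _ : IsGalois F L, Nonempty (Gal(L/F) ≃* G) ∧ SolvesSmall T n F L ∧ ProjectiveUpTo T n F L ∧
    ∀ p : ℕ, p.Prime → p ∈ T → RichUpTo p n F L

/-- Whenever a Galois extension `N/F` of fields has group `Γ`, the fixed field of the kernel of `π`
is Galois over `F` with group `G` and has the properties (1), (2) and (3). -/
def Forces.{u, v} {Γ G : Type u} [Group Γ] [Group G] (T : Set ℕ) (n : ℕ) (π : Γ →* G) : Prop :=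
  ∀ (F N : Type v) [Field F] [Field N] [Algebra F N] [IsGalois F N] (e : Gal(N/F) ≃* Γ)
    (L : IntermediateField F N), L = fixedField (π.comp e.toMonoidHom).ker →
    HasGroupUniv T n F L G

/-- The cover theorem. -/
theorem cover.{u, v} (G : Type u) [Group G] [Finite G] (T : Set ℕ) (n : ℕ) :
    ∃ (Γ : Type u) (_ : Group Γ) (_ : Finite Γ) (π : Γ →* G), Function.Surjective π ∧
      (∀ r : ℕ, r.Prime → r ∣ Nat.card Γ → r ∈ T ∨ r ∣ Nat.card G) ∧ Forces.{u, v} T n π := by
  classical
  have hs : ∀ x, (1 : G →* PUnit.{1}) ((1 : PUnit.{1} →* G) x) = x := fun x => rfl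
  refine ⟨RelCov (1 : G →* PUnit.{1}) (1 : PUnit.{1} →* G) T n, inferInstance, inferInstance,
    relProj _ _ T n, relProj_surjective _ _ T n hs, ?_, ?_⟩
  · intro r hr hd
    have h1 : Nat.card (RelCov (1 : G →* PUnit.{1}) (1 : PUnit.{1} →* G) T n) =
        Nat.card (PCov (relc (1 : G →* PUnit.{1}) (1 : PUnit.{1} →* G) n) T n) := by
      rw [Nat.card_congr (SemidirectProduct.equivProd
        (φ := relAct (1 : G →* PUnit.{1}) (1 : PUnit.{1} →* G) T n)), Nat.card_prod]
      simp
    rw [h1, card_PCov, hr.dvd_mul] at hd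
    rcases hd with h | h
    · exact Or.inl (Kn_isT T n r hr h)
    · refine Or.inr (h.trans ?_)
      rw [Subgroup.index_ker]
      exact (Subgroup.card_subgroup_dvd_card _).trans (Subgroup.card_subgroup_dvd_card _)
  · intro F N _ _ _ _ e L hL
    have hfinGal : Finite Gal(N/F) := Finite.of_equiv _ e.symm.toEquiv
    have hfd : FiniteDimensional F N := IsGaloisGroup.finiteDimensional Gal(N/F) F N
    have hgal : IsGalois F L := by
      rw [hL]
      infer_instance
    obtain ⟨hγ, hproj, hsm⟩ := abs_subfield T n e L hL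
    have hproj' : ProjUpTo T n F F L := hproj
    refine ⟨hgal, hγ, ?_, ?_, ?_⟩
    · intro A _ _ β hβ hc hT
      obtain ⟨φ, hφ1, hφ2⟩ := hsm A β hβ hc hT
      obtain ⟨F', k1, k2, k3, k4, δ, hδ⟩ := Pool.Agent.Q24.PS.exists_between β φ hφ1 hφ2
      exact ⟨F', inferInstance, inferInstance, k2, k4, k1, δ, hδ⟩
    · intro D A _ _ β h1 h2 h3
      exact hproj' D (fun σ _ x => by
        rw [← IsScalarTower.algebraMap_apply, AlgEquiv.commutes]) A β h1 h2 h3
    · intro p hp hpT D P h1 h2 h3
      exact rich_of_proj hp hpT hproj' D (fun σ _ x => by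
        rw [← IsScalarTower.algebraMap_apply, AlgEquiv.commutes]) P h1 h2 h3

/-- The equivalence for an arbitrary field. -/
theorem equivalence.{v} (F : Type v) [Field F] (T : Set ℕ)
    (h : ∀ (G : Type) [Group G] [Finite G], IsTGroup T G →
      ∃ (L : Type v) (_ : Field L) (_ : Algebra F L), HasGroup F L G)
    (G : Type) [Group G] [Finite G] (hG : IsTGroup T G) (n : ℕ) :
    ∃ (L : Type v) (_ : Field L) (_ : Algebra F L), HasGroupUniv T n F L G := by
  obtain ⟨Γ, _, _, π, hπ, hp, hΓ⟩ := cover.{0, v} G T n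
  obtain ⟨N, _, _, hN, ⟨e⟩⟩ := h Γ fun r hr hrd => (hp r hr hrd).elim id (hG r hr)
  exact ⟨fixedField (π.comp e.toMonoidHom).ker, inferInstance, inferInstance, hΓ F N e _ rfl⟩

theorem result.{u, v} :
    (∀ (G : Type u) [Group G] [Finite G] (T : Set ℕ) (n : ℕ),
      ∃ (Γ : Type u) (_ : Group Γ) (_ : Finite Γ) (π : Γ →* G), Function.Surjective π ∧
        (∀ r : ℕ, r.Prime → r ∣ Nat.card Γ → r ∈ T ∨ r ∣ Nat.card G) ∧ Forces.{u, v} T n π) ∧
    (∀ (F : Type v) [Field F] (T : Set ℕ),
      (∀ (G : Type) [Group G] [Finite G], IsTGroup T G →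
        ∃ (L : Type v) (_ : Field L) (_ : Algebra F L), HasGroup F L G) ↔
      ∀ (G : Type) [Group G] [Finite G], IsTGroup T G → ∀ n : ℕ,
        ∃ (L : Type v) (_ : Field L) (_ : Algebra F L), HasGroupUniv T n F L G) ∧
    (∀ p : ℕ, [Fact p.Prime] →
      ((∀ (G : Type) [Group G] [Finite G],
        ∃ (L : Type) (_ : Field L) (_ : Algebra (RatFunc (ZMod p)) L),
          HasGroup (RatFunc (ZMod p)) L G) ↔
      ∀ (G : Type) [Group G] [Finite G] (n : ℕ),
        ∃ (L : Type) (_ : Field L) (_ : Algebra (RatFunc (ZMod p)) L),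
          HasGroupUniv Set.univ n (RatFunc (ZMod p)) L G)) := by
  refine ⟨fun G _ _ T n => cover G T n, fun F _ T => ⟨fun h G _ _ hG n => equivalence F T h G hG n,
    fun h G _ _ hG => ?_⟩, fun p _ => ⟨fun h G _ _ n => ?_, fun h G _ _ => ?_⟩⟩
  · obtain ⟨L, i1, i2, h1, h2, _⟩ := h G hG 0
    exact ⟨L, i1, i2, h1, h2⟩
  · exact equivalence (RatFunc (ZMod p)) Set.univ (fun G _ _ _ => h G) G
      (fun r _ _ => Set.mem_univ r) n
  · obtain ⟨L, i1, i2, h1, h2, _⟩ := h G 0
    exact ⟨L, i1, i2, h1, h2⟩

end Pool.Agent.Results.MP_7f581e_nt.UniversalSolutions
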