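import Mathlib
import Pool.Agent.Q216.IGP.Fields

/-!
# The inverse Galois problem over `F_p(X)` without tame ramification at the places of small degree

A place of a field `F` with finite residue field is given by a Dedekind domain `A` with field of
fractions `F` (for instance a discrete valuation ring) and a nonzero prime `P` of `A` with finite
residue field.  Every finite group occurs over `F_p(X)` if and only if every finite group occurs
with an extension in which the ramification indices over the places of degree `≤ d` are powers of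
`p`; every finite group of order prime to `p` occurs over `F_p(X)` if and only if every such group
occurs with an extension unramified over all places of degree `≤ d`.
-/

set_option autoImplicit false

namespace Pool.Agent.Results.MP_7f581e_nt.UnramifiedAtSmallPlaces

open Pool.Agent.Q216.IGP

/-- `L` is Galois over `F` with a group isomorphic to `G`. -/
def HasGroup (F L G : Type*) [Field F] [Field L] [Algebra F L] [Group G] : Prop :=
  IsGalois F L ∧ Nonempty (Gal(L/F) ≃* G)

/-- The number of elements of the residue field `A / P`, `P` the prime of `A` under `Q`. -/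
noncomputable def norm (A L : Type*) [CommRing A] [Field L] [Algebra A L]
    (Q : Ideal (integralClosure A L)) : ℕ :=
  Nat.card (A ⧸ Q.under A)

/-- The ramification index of `Q` over `A`. -/
noncomputable def ramIdx (A L : Type*) [CommRing A] [Field L] [Algebra A L]
    (Q : Ideal (integralClosure A L)) : ℕ :=
  Q.ramificationIdx A

/-- `φ N e m` holds whenever `Q` is a nonzero prime of `L` over the place `P` of `F` with finite
residue field (where the place is given by any Dedekind domain `A` with field of fractions `F`),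
`N` is the number of elements of the residue field of `P`, `e` is the ramification index of `Q` over
`P`, and `m` is the set of all natural numbers which lie in `Q` (the multiples of the residue
characteristic). -/
def AtAllPlaces.{v} (F L : Type v) [Field F] [Field L] [Algebra F L]
    (φ : ℕ → ℕ → Set ℕ → Prop) : Prop :=
  ∀ (A : Type v) [CommRing A] [IsDedekindDomain A] [Algebra A F] [IsFractionRing A F]
    [Algebra A L] [IsScalarTower A F L] (Q : Ideal (integralClosure A L)), Q.IsPrime → Q ≠ ⊥ →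
    Finite (A ⧸ Q.under A) →
    φ (norm A L Q) (ramIdx A L Q) {r : ℕ | (r : integralClosure A L) ∈ Q}

/-- Whenever a Galois extension `N/F` of fields has group `Γ`, the fixed field `L` of the kernel of
`π` is Galois over `F` with group `G`, and every prime number `r` which divides the ramification
index of a prime `Q` of `L` over a place `P` of `F` and is not the residue characteristic satisfies
`r ^ k ∣ N(P) ^ |G| - 1`. -/
def Forces.{u, v} {Γ G : Type u} [Group Γ] [Group G] (π : Γ →* G) (k : ℕ) : Prop :=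
  ∀ (F N : Type v) [Field F] [Field N] [Algebra F N] [IsGalois F N] (e : Gal(N/F) ≃* Γ)
    (L : IntermediateField F N), L = IntermediateField.fixedField (π.comp e.toMonoidHom).ker →
    HasGroup F L G ∧ AtAllPlaces F L fun q i m =>
      ∀ r : ℕ, r.Prime → r ∉ m → r ∣ i → r ^ k ∣ q ^ Nat.card G - 1

/-- The order of `G` is divisible only by primes in `T`. -/
def IsTGroup (T : Set ℕ) (G : Type) [Group G] : Prop := ∀ r : ℕ, r.Prime → r ∣ Nat.card G → r ∈ T

/-- The cover theorem. -/
theorem cover.{u, v} (G : Type u) [Group G] [Finite G] (k : ℕ) :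
    ∃ (Γ : Type u) (_ : Group Γ) (_ : Finite Γ) (π : Γ →* G), Function.Surjective π ∧
      (∀ a b : Γ, π a = 1 → π b = 1 → a * b = b * a) ∧
      (∀ r : ℕ, r.Prime → r ∣ Nat.card Γ → r ∣ Nat.card G) ∧ Forces.{u, v} π k := by
  classical
  have hfin : Fintype G := Fintype.ofFinite G
  have hne : NeZero (Nat.card G ^ (k + 1)) := ⟨pow_ne_zero _ Nat.card_pos.ne'⟩
  refine ⟨Cov G (Nat.card G ^ (k + 1)), inferInstance, inferInstance, Cov.proj,
    Cov.proj_surjective, fun a b ha hb => Cov.commute_of_proj ha hb,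
    fun r hr h => Cov.dvd_card hr h, ?_⟩
  intro F N _ _ _ _ e L hL
  set ρ : Gal(N/F) →* G := (Cov.proj : Cov G (Nat.card G ^ (k + 1)) →* G).comp e.toMonoidHom with hρ
  subst hL
  have hsurj : Function.Surjective ρ := by
    rw [hρ]
    exact Cov.proj_surjective.comp e.surjective
  have hfinGal : Finite Gal(N/F) := Finite.of_equiv _ e.symm.toEquiv
  have hfd : FiniteDimensional F N := IsGaloisGroup.finiteDimensional Gal(N/F) F N
  refine ⟨⟨inferInstance, ⟨?_⟩⟩, ?_⟩
  · exact (IsGalois.normalAutEquivQuotient ρ.ker).symm.trans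
      (QuotientGroup.quotientKerEquivOfSurjective ρ hsurj)
  · intro A _ _ _ _ _ _ Q hQp hQ hfinA r hr hrQ hrd
    have h1 : IsGaloisGroup ρ.ker (IntermediateField.fixedField ρ.ker) N :=
      IsGaloisGroup.subgroup Gal(N/F) F N ρ.ker
    obtain ⟨σ, x, h1, h2⟩ := exists_conj_tower (F := F) (N := N) (A := A) ρ Q hQ hr hrQ hrd
    have h3 : e x * e σ * (e x)⁻¹ = (e σ) ^ Nat.card (A ⧸ Q.under A) := by
      rw [← map_pow, ← h1, map_mul, map_mul, map_inv]
    have h4 : r ∣ orderOf (e σ).g := h2
    have h5 : r ∣ Nat.card G := h4.trans (orderOf_dvd_natCard _)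
    exact (pow_dvd_pow r (Nat.le_succ k)).trans
      (Cov.dvd_of_conj_eq_pow (e σ) (e x) _ h3 hr h4 (Nat.succ_ne_zero k)
        (pow_dvd_pow_of_dvd h5 (k + 1)))

/-- The equivalence for an arbitrary field. -/
theorem equivalence.{v} (F : Type v) [Field F] (T : Set ℕ)
    (h : ∀ (G : Type) [Group G] [Finite G], IsTGroup T G →
      ∃ (L : Type v) (_ : Field L) (_ : Algebra F L), HasGroup F L G)
    (G : Type) [Group G] [Finite G] (hG : IsTGroup T G) (B : ℕ) :
    ∃ (L : Type v) (_ : Field L) (_ : Algebra F L), HasGroup F L G ∧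
      AtAllPlaces F L fun q i m => q ≤ B → ∀ r : ℕ, r.Prime → r ∣ i → r ∈ m := by
  obtain ⟨Γ, _, _, π, hπ, _, hp, hΓ⟩ := cover.{0, v} G (B ^ Nat.card G)
  obtain ⟨N, _, _, hN, ⟨e⟩⟩ := h Γ fun r hr hrd => hG r hr (hp r hr hrd)
  obtain ⟨h1, h2⟩ := hΓ F N e _ rfl
  refine ⟨IntermediateField.fixedField (π.comp e.toMonoidHom).ker, inferInstance, inferInstance, h1,
    ?_⟩
  intro A _ _ _ _ _ _ Q hQp hQ hfinA hqB r hr hrd
  by_contra hrQ
  have h5 : r ^ (B ^ Nat.card G) ∣ norm A _ Q ^ Nat.card G - 1 :=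
    h2 A Q hQp hQ hfinA r hr hrQ hrd
  have h7 : (Q.under A).IsPrime := inferInstance
  have h8 : 1 < norm A _ Q := Finite.one_lt_card
  have h9 : 1 < norm A _ Q ^ Nat.card G := Nat.one_lt_pow Nat.card_pos.ne' h8
  have h10 := Nat.le_of_dvd (by omega) h5
  have h11 : B ^ Nat.card G < 2 ^ (B ^ Nat.card G) := Nat.lt_two_pow_self
  have h12 : 2 ^ (B ^ Nat.card G) ≤ r ^ (B ^ Nat.card G) := Nat.pow_le_pow_left hr.two_le _
  have h13 : norm A _ Q ^ Nat.card G ≤ B ^ Nat.card G := Nat.pow_le_pow_left hqB _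
  omega

/-- In characteristic `p` the residue characteristic is `p`. -/
theorem isPow.{v} {p : ℕ} [Fact p.Prime] {F L : Type v} [Field F] [CharP F p] [Field L]
    [Algebra F L] {G : Type} [Group G] [Finite G] (hL : HasGroup F L G) {B : ℕ}
    (h : AtAllPlaces F L fun q i m => q ≤ B → ∀ r : ℕ, r.Prime → r ∣ i → r ∈ m) :
    AtAllPlaces F L fun q i _ => q ≤ B → (∃ j, i = p ^ j) ∧ i ∣ Nat.card G := by
  intro A _ _ _ _ _ _ Q hQp hQ hfinA hqB
  obtain ⟨hgal, ⟨e⟩⟩ := hL
  have hfinGal : Finite Gal(L/F) := Finite.of_equiv _ e.symm.toEquiv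
  have hfd : FiniteDimensional F L := IsGaloisGroup.finiteDimensional Gal(L/F) F L
  have h1 : ramIdx A L Q ∣ Nat.card G := by
    rw [← Nat.card_congr e.toEquiv]
    exact ramificationIdx_dvd_card_gal (F := F) Q
  refine ⟨⟨(ramIdx A L Q).primeFactorsList.length, Nat.eq_prime_pow_of_unique_prime_dvd ?_ ?_⟩, h1⟩
  · exact (Nat.pos_of_dvd_of_pos h1 Nat.card_pos).ne'
  · intro r hr hrd
    have h2 : (r : integralClosure A L) ∈ Q := h A Q hQp hQ hfinA hqB r hr hrd
    by_contra hne
    have hp : p.Prime := Fact.out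
    have h3 : Nat.Coprime r p := (Nat.coprime_primes hr hp).mpr hne
    have h4 : IsCoprime (r : ℤ) (p : ℤ) := Nat.isCoprime_iff_coprime.mpr h3
    obtain ⟨a, b, hab⟩ := h4
    have hp0 : ((p : ℤ) : integralClosure A L) = 0 := by
      ext
      have : CharP L p := charP_of_injective_algebraMap (algebraMap F L).injective p
      push_cast
      exact CharP.cast_eq_zero L p
    have h5 : (1 : integralClosure A L) = (a : integralClosure A L) * (r : integralClosure A L) := by
      have h6 := congrArg (Int.cast : ℤ → integralClosure A L) hab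
      rw [Int.cast_add, Int.cast_mul, Int.cast_mul, hp0, mul_zero, add_zero, Int.cast_one,
        Int.cast_natCast] at h6
      exact h6.symm
    exact hQp.ne_top ((Ideal.eq_top_iff_one Q).mpr (h5 ▸ Q.mul_mem_left _ h2))

theorem result.{u, v} :
    (∀ (G : Type u) [Group G] [Finite G] (k : ℕ),
      ∃ (Γ : Type u) (_ : Group Γ) (_ : Finite Γ) (π : Γ →* G), Function.Surjective π ∧
        (∀ a b : Γ, π a = 1 → π b = 1 → a * b = b * a) ∧
        (∀ r : ℕ, r.Prime → r ∣ Nat.card Γ → r ∣ Nat.card G) ∧ Forces.{u, v} π k) ∧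
    (∀ (F : Type v) [Field F] (T : Set ℕ),
      (∀ (G : Type) [Group G] [Finite G], IsTGroup T G →
        ∃ (L : Type v) (_ : Field L) (_ : Algebra F L), HasGroup F L G) ↔
      ∀ (G : Type) [Group G] [Finite G], IsTGroup T G → ∀ B : ℕ,
        ∃ (L : Type v) (_ : Field L) (_ : Algebra F L), HasGroup F L G ∧
          AtAllPlaces F L fun q i m => q ≤ B → ∀ r : ℕ, r.Prime → r ∣ i → r ∈ m) ∧
    (∀ p : ℕ, [Fact p.Prime] →
      ((∀ (G : Type) [Group G] [Finite G],
        ∃ (L : Type) (_ : Field L) (_ : Algebra (RatFunc (ZMod p)) L),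
          HasGroup (RatFunc (ZMod p)) L G) ↔
      ∀ (G : Type) [Group G] [Finite G] (d : ℕ),
        ∃ (L : Type) (_ : Field L) (_ : Algebra (RatFunc (ZMod p)) L),
          HasGroup (RatFunc (ZMod p)) L G ∧
          AtAllPlaces (RatFunc (ZMod p)) L fun q i _ => q ≤ p ^ d → ∃ j, i = p ^ j) ∧
      ((∀ (G : Type) [Group G] [Finite G], (Nat.card G).Coprime p →
        ∃ (L : Type) (_ : Field L) (_ : Algebra (RatFunc (ZMod p)) L),
          HasGroup (RatFunc (ZMod p)) L G) ↔
      ∀ (G : Type) [Group G] [Finite G], (Nat.card G).Coprime p → ∀ d : ℕ,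
        ∃ (L : Type) (_ : Field L) (_ : Algebra (RatFunc (ZMod p)) L),
          HasGroup (RatFunc (ZMod p)) L G ∧
          AtAllPlaces (RatFunc (ZMod p)) L fun q i _ => q ≤ p ^ d → i = 1)) := by
  refine ⟨fun G _ _ k => cover G k, fun F _ T => ⟨fun h G _ _ hG B => equivalence F T h G hG B,
    fun h G _ _ hG => ?_⟩, fun p _ => ⟨⟨fun h G _ _ d => ?_, fun h G _ _ => ?_⟩,
    ⟨fun h G _ _ hG d => ?_, fun h G _ _ hG => ?_⟩⟩⟩
  · obtain ⟨L, i1, i2, h1, _⟩ := h G hG 0
    exact ⟨L, i1, i2, h1⟩
  · obtain ⟨L, i1, i2, h1, h2⟩ := equivalence (RatFunc (ZMod p)) Set.univ (fun G _ _ _ => h G) G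
      (fun r _ _ => Set.mem_univ r) (p ^ d)
    have hch : CharP (RatFunc (ZMod p)) p :=
      charP_of_injective_algebraMap (algebraMap (ZMod p) (RatFunc (ZMod p))).injective p
    have h3 := isPow (p := p) h1 h2
    exact ⟨L, i1, i2, h1, fun A _ _ _ _ _ _ Q a b c d => (h3 A Q a b c d).1⟩
  · obtain ⟨L, i1, i2, h1, _⟩ := h G 0
    exact ⟨L, i1, i2, h1⟩
  · have hp : p.Prime := Fact.out
    obtain ⟨L, i1, i2, h1, h2⟩ := equivalence (RatFunc (ZMod p)) {r | r ≠ p}
      (fun G _ _ hG => h G (Nat.Coprime.symm ((Nat.Prime.coprime_iff_not_dvd hp).mpr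
        fun hd => hG p hp hd rfl))) G
      (fun r _ hrd hrp => hp.one_lt.ne' (Nat.Coprime.eq_one_of_dvd hG.symm (hrp ▸ hrd))) (p ^ d)
    have hch : CharP (RatFunc (ZMod p)) p :=
      charP_of_injective_algebraMap (algebraMap (ZMod p) (RatFunc (ZMod p))).injective p
    have h3 := isPow (p := p) h1 h2
    refine ⟨L, i1, i2, h1, fun A _ _ _ _ _ _ Q a b c d => ?_⟩
    obtain ⟨⟨j, hj⟩, h5⟩ := h3 A Q a b c d
    rcases Nat.eq_zero_or_pos j with h0 | h0
    · rw [hj, h0, pow_zero]
    · exfalso
      rw [hj] at h5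
      exact hp.one_lt.ne' (Nat.Coprime.eq_one_of_dvd hG.symm ((dvd_pow_self p h0.ne').trans h5))
  · obtain ⟨L, i1, i2, h1, _⟩ := h G hG 0
    exact ⟨L, i1, i2, h1⟩

end Pool.Agent.Results.MP_7f581e_nt.UnramifiedAtSmallPlaces
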